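import Pool.Agent.Lib_helper76.FAM.Conj

/-!
# Points of order eight: the normal forms with respect to `P` and to `3 P`
-/

set_option autoImplicit false
set_option linter.unusedSectionVars false

namespace Pool.Agent.FK4

open Pool.Agent.MK4 WeierstrassCurve.Affine
open Pool.Agent.TN (Wt)
open Pool.Agent.UEG (P0 Chg)

variable {k : Type*} [Field k] [DecidableEq k] {W : WeierstrassCurve.Affine k} {F : Type*}
  [Field F] [Algebra k F] {X Y : F}

/-- the normal form with parameter `t` for the group generated by a point of order eight -/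
def To8t (t : k) (P : W.Point) (X Y : F) : Prop := ∃ (hb : UE8.bb t ≠ 0) (x' y' : F),
  Generic (Wt (UE8.bb t) (UE8.cc t)) x' y' ∧ addOrderOf (P0 (UE8.cc t) hb) = 8 ∧
  SameS (AddSubgroup.zmultiples P) X Y (AddSubgroup.zmultiples (P0 (UE8.cc t) hb)) x' y' ∧
  (IntermediateField.adjoin k {X, Y} = ⊤ → IntermediateField.adjoin k {x', y'} = ⊤)

omit [DecidableEq k] in
/-- the change of variables from `P` to `3 P` -/
lemma chg8 {t : k} (ht : t ≠ 0) (ht1 : t - 1 ≠ 0) :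
    Chg (Wt (UE8.bb t) (UE8.cc t)) (Wt (UE8.bb (1 - t)) (UE8.cc (1 - t))) ((t - 1) / t)
      (UE8.cc t) (2 * (t - 1)) (UE8.bb t - UE8.cc t) := by
  have h1 : (1 : k) - t ≠ 0 := fun h => ht1 (by linear_combination -h)
  constructor
  · exact div_ne_zero ht1 ht
  all_goals
    simp only [Wt, UE8.bb, UE8.cc]
    field_simp
    ring

/-- points of order eight: the normal forms with respect to `P` and to `3 P` -/
theorem tate8x (hg : Generic W X Y) (P : W.Point) (h : addOrderOf P = 8) :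
    ∃ (t : k) (x y : F) (hb : UE8.bb t ≠ 0), t ≠ 0 ∧ t - 1 ≠ 0 ∧ 2 * t - 1 ≠ 0 ∧
      Tate P X Y ((2 * t - 1) * (t - 1)) ((2 * t - 1) * (t - 1) / t) x y ∧
      Generic (Wt (UE8.bb t) (UE8.cc t)) x y ∧
      addOrderOf (P0 (UE8.cc t) hb) = 8 ∧
      SameS (AddSubgroup.zmultiples P) X Y (AddSubgroup.zmultiples (P0 (UE8.cc t) hb)) x y ∧
      (IntermediateField.adjoin k {X, Y} = ⊤ → IntermediateField.adjoin k {x, y} = ⊤) ∧
      To8t t P X Y ∧ To8t (1 - t) P X Y := by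
  rcases P with _ | ⟨p₁, p₂, hP⟩
  · exfalso
    have : addOrderOf (0 : W.Point) = 8 := h
    rw [addOrderOf_zero] at this
    omega
  obtain ⟨b, c, u, s, hb, hC, hO, hH⟩ := UEG.tate_of_order hP (by norm_num : 4 ≤ 8) h
  obtain ⟨t, ht, eb, ec, hc⟩ := UEG.bc_of_eight hb hO
  have ec' : c = UE8.cc t := by
    unfold UE8.cc
    rw [eq_div_iff ht, ← ec, eb]
  have eb' : b = UE8.bb t := by rw [eb]; rfl
  have hb1 : (2 * t - 1) * (t - 1) ≠ 0 := by rw [← eb]; exact hb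
  clear ec eb
  subst ec' eb'
  have ht1 : t - 1 ≠ 0 := right_ne_zero_of_mul hb1
  have ht2 : 2 * t - 1 ≠ 0 := left_ne_zero_of_mul hb1
  obtain ⟨x, y, i1, i2, i3, i4⟩ := tateS_of hg hP hb hC
  have hP8 : (8 : ℕ) • Point.some p₁ p₂ hP = 0 := by rw [← h]; exact addOrderOf_nsmul_eq_zero _
  refine ⟨t, x, y, hb, ht, ht1, ht2, i1, i2, hO, i3, i4, ⟨hb, x, y, i2, hO, i3, i4⟩, ?_⟩
  obtain ⟨h3, e3⟩ := UEG.three_P0 (c := UE8.cc t) hb
  have hb' : UE8.bb (1 - t) ≠ 0 := by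
    have : UE8.bb (1 - t) = (2 * t - 1) * t := by unfold UE8.bb; ring
    rw [this]
    exact mul_ne_zero ht2 ht
  obtain ⟨x', y', j1, j2, j3, j4, j5⟩ := tateS_mul hg hP hb hC hb' (chg8 ht ht1) e3
  have hz := zm_eq hP8 (m := 3) (m' := 3) (by norm_num)
  rw [hz] at j4
  exact ⟨hb', x', y', j2, j3.trans ((order_eq hz).trans h), j4, j5⟩

end Pool.Agent.FK4
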