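import Pool.Agent.Lib_helper87.FAM.EightL
import Pool.Agent.Lib_helper60.FAM.To8x

/-!
# Points of order eight: the full clause
-/

set_option autoImplicit false
set_option linter.unusedSectionVars false

open scoped TensorProduct WithZero

namespace Pool.Agent.FK4

open Pool.Agent.MK4 WeierstrassCurve.Affine Pool.Agent.KC72
open Pool.Agent.TN (Wt)

variable {k : Type*} [Field k] [DecidableEq k] [CharZero k] {W : WeierstrassCurve.Affine k}
  {F : Type*} [Field F] [Algebra k F] {X Y : F}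

lemma To8t.cast {s t : k} {P : W.Point} (h : To8t s P X Y) (e : s = t) : To8t t P X Y := by
  subst e; exact h

lemma To8t.to8 {P : W.Point} (h : To8t (2 : k) P X Y) : To8 P X Y := by
  obtain ⟨hb, x, y, h1, h2, h3, h4⟩ := h
  exact ⟨x, y, h1, h2, h3, h4⟩

lemma To8t.to8' {P : W.Point} (h : To8t (1 / 3 : k) P X Y) : To8' P X Y := by
  obtain ⟨hb, x, y, h1, h2, h3, h4⟩ := h
  exact ⟨x, y, h1, h2, h3, h4⟩

/-- **points of order eight**, all parameters -/
theorem eight_of' (hg : Generic W X Y) (P : W.Point) (h : addOrderOf P = 8)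
    (a0 : To8t (3 / 2) P X Y → Line P X Y) (a1 : To8t (3 / 4) P X Y → Line P X Y) :
    ∃ (d : k) (x y : F), d ≠ 0 ∧
      Tate P X Y ((2 * d - 1) * (d - 1)) ((2 * d - 1) * (d - 1) / d) x y ∧
      (Indep3 d (d - 1) (2 * d - 1) →
        UnitEq8 (AddSubgroup.zmultiples P) X Y ((2 * d - 1) * (d - 1))
          ((2 * d - 1) * (d - 1) / d) x y ∧ ClosedIn (AddSubgroup.zmultiples P) X Y ⊥) ∧
      (d = 2 ∨ d = -1 ∨ 3 * d = 1 ∨ 3 * d = 2 ∨ 2 * d = 3 ∨ 2 * d = -1 ∨ 4 * d = 1 ∨ 4 * d = 3 →
        Line P X Y) := by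
  obtain ⟨d, x, y, hb, ht, -, -, hT, hG, hO, hS, -, h1, h2⟩ := tate8x hg P h
  refine ⟨d, x, y, ht, hT, fun hi => UE8.eight_general hg ht hO hG hS hi, ?_⟩
  rintro (e | e | e | e | e | e | e | e)
  · exact line8a hg (h1.cast e).to8
  · exact line8a hg (h2.cast (t := 2) (by rw [e]; norm_num)).to8
  · exact line8b hg (h1.cast (t := 1 / 3) (by linear_combination e / 3)).to8'
  · exact line8b hg (h2.cast (t := 1 / 3) (by linear_combination -e / 3)).to8'
  · exact a0 (h1.cast (by linear_combination e / 2))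
  · exact a0 (h2.cast (by linear_combination -e / 2))
  · exact a1 (h2.cast (by linear_combination -e / 4))
  · exact a1 (h1.cast (by linear_combination e / 4))

end Pool.Agent.FK4
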