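import Mathlib

set_option autoImplicit false

/-!
# The condition on the two parameters of order six holds for all rational `t`
-/

namespace Pool.Agent.FK4

lemma sq_ne_prime {p : ℕ} (hp : p.Prime) (x : ℚ) : x ^ 2 ≠ (p : ℚ) := by
  intro h
  have : Fact p.Prime := ⟨hp⟩
  have h0 : x ≠ 0 := by
    rintro rfl
    rw [zero_pow two_ne_zero] at h
    exact Nat.cast_ne_zero.mpr hp.ne_zero h.symm
  have h1 := congrArg (padicValRat p) h
  rw [pow_two, padicValRat.mul h0 h0, padicValRat.self hp.one_lt] at h1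
  omega

/-- the two parameters of order six of a curve with a point of order twelve are not `1/3`, `-1/3`,
`-1/5` for rational `t` -/
theorem star12_rat {t : ℚ} (t0 : t ≠ 0) (t1 : t ≠ 1) : ∀ a : ℚ,
    a = t * (t - 1) * (2 * t - 1) ^ 2 / (3 * t ^ 2 - 3 * t + 1) ∨
      a = -(t ^ 2 * (1 - t) ^ 2 / (3 * t ^ 2 - 3 * t + 1) ^ 2) →
    3 * a ≠ 1 ∧ 3 * a ≠ -1 ∧ 5 * a ≠ -1 := by
  intro a ha
  obtain ⟨s, hs⟩ : ∃ s, s = t ^ 2 - t := ⟨_, rfl⟩
  have hD : 3 * t ^ 2 - 3 * t + 1 = 3 * s + 1 := by rw [hs]; ring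
  have hp : 0 < 3 * s + 1 := by rw [← hD]; nlinarith [sq_nonneg (2 * t - 1)]
  have hs0 : s ≠ 0 := by
    intro h
    have : t * (t - 1) = 0 := by rw [← h, hs]; ring
    rcases mul_eq_zero.mp this with h1 | h1
    · exact t0 h1
    · exact t1 (by linear_combination h1)
  have e1 : t * (t - 1) * (2 * t - 1) ^ 2 = s * (4 * s + 1) := by rw [hs]; ring
  have e2 : t ^ 2 * (1 - t) ^ 2 = s ^ 2 := by rw [hs]; ring
  rw [hD, e1, e2] at ha
  have n3 : ((3 : ℕ) : ℚ) = 3 := by norm_num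
  have n5 : ((5 : ℕ) : ℚ) = 5 := by norm_num
  rcases ha with ha | ha
  · have h1 : a * (3 * s + 1) = s * (4 * s + 1) := by
      rw [ha, div_mul_cancel₀ _ hp.ne']
    refine ⟨fun h => ?_, fun h => ?_, fun h => ?_⟩
    · apply sq_ne_prime Nat.prime_three (6 * s)
      rw [n3]
      linear_combination (-9 : ℚ) * h1 + 3 * (3 * s + 1) * h
    · nlinarith [sq_nonneg (4 * s + 1)]
    · nlinarith [sq_nonneg (5 * s + 1)]
  · have h1 : a * (3 * s + 1) ^ 2 = -(s ^ 2) := by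
      rw [ha, neg_mul, div_mul_cancel₀ _ (pow_ne_zero 2 hp.ne')]
    have h2 : 0 < s ^ 2 := by positivity
    refine ⟨fun h => ?_, fun h => ?_, fun h => ?_⟩
    · nlinarith [sq_nonneg (3 * s + 1)]
    · apply sq_ne_prime Nat.prime_three ((3 * s + 1) / s)
      rw [n3, div_pow, div_eq_iff (pow_ne_zero 2 hs0)]
      linear_combination (-3 : ℚ) * h1 + (3 * s + 1) ^ 2 * h
    · apply sq_ne_prime Nat.prime_five ((3 * s + 1) / s)
      rw [n5, div_pow, div_eq_iff (pow_ne_zero 2 hs0)]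
      linear_combination (-5 : ℚ) * h1 + (3 * s + 1) ^ 2 * h

end Pool.Agent.FK4
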