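import Pool.Agent.Lib_helper60.FAM.RX
import Pool.Agent.Lib_helper60.N6S.L
import Pool.Agent.Lib_helper76.FAM.Tate

/-!
# Points of order six, `t = 1/3, -1/3, -1/5`: the clause `Line` from the classes
-/

set_option autoImplicit false
set_option linter.unusedSectionVars false
set_option linter.unusedVariables false

open scoped TensorProduct WithZero

namespace Pool.Agent.FK4

open Pool.Agent.MK4 WeierstrassCurve.Affine Pool.Agent.KC72 Pool.Agent.MC
open Pool.Agent.TN (Wt)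
open Pool.Agent.UEG (P0)
open Pool.Agent.N6 (G6 M)
open Pool.Agent.N6S (G6S glS KdS TcS)

variable {k : Type*} [Field k] [DecidableEq k] {W : WeierstrassCurve.Affine k} {F : Type*}
  [Field F] [Algebra k F] {X Y : F}

/-- the normal form with parameter `t` for the group generated by a point of order six -/
def To6t (t : k) (P : W.Point) (X Y : F) : Prop := ∃ (hb : UE6.bb t ≠ 0) (x' y' : F),
  Generic (Wt (UE6.bb t) (UE6.cc t)) x' y' ∧ addOrderOf (P0 (UE6.cc t) hb) = 6 ∧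
  SameS (AddSubgroup.zmultiples P) X Y (AddSubgroup.zmultiples (P0 (UE6.cc t) hb)) x' y' ∧
  (IntermediateField.adjoin k {X, Y} = ⊤ → IntermediateField.adjoin k {x', y'} = ⊤)

lemma span_red {k : Type*} [Field k] {F : Type*} [Field F] [Algebra k F] {g : List F}
    {clsF clsK : List (Mo × Mo)} (hred : ∀ p ∈ clsF, sy (ev g p.1) ∈ SC k F ⊔
      Submodule.span ℚ {a : B2 F | ∃ p ∈ clsK, a = sy (ev g p.1)}) :
    SC k F ⊔ Submodule.span ℚ {a : B2 F | ∃ p ∈ clsF, a = sy (ev g p.1)} ≤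
      SC k F ⊔ Submodule.span ℚ {a : B2 F | ∃ p ∈ clsK, a = sy (ev g p.1)} := by
  refine sup_le le_sup_left (Submodule.span_le.mpr ?_)
  rintro a ⟨p, hp, rfl⟩
  exact hred p hp

variable [CharZero k]

/-- **the clause `Line`** for `t = 1/3, -1/3, -1/5` from a certificate with several classes -/
theorem line6S_of {κ : Fin 3} {t : k} (hk : KdS κ t) (hg : Generic W X Y) {P : W.Point}
    (h6 : To6t t P X Y) {R : RCert} {LL : List (List Tm)} (hR : ROkX R LL) (hn : R.n = 7)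
    (hr : R.r = 5) {clsF clsK : List (Mo × Mo)} (hcl : sameC R.cls clsK = true)
    (hKF : ∀ p ∈ clsK, p ∈ clsF)
    (hsF : ∀ x y : F, G6 t x y → Sols (glS κ t x y) clsF)
    (hF : ∀ x y : F, G6 t x y → ∀ {c c' : k} (_ : c ≠ 0) (_ : c' ≠ 0)
      {a₀ a₁ a₂ a₃ a₄ b₀ b₁ b₂ b₃ b₄ : ℤ}
      (_ : algebraMap k F c * M t x y a₀ a₁ a₂ a₃ a₄ +
        algebraMap k F c' * M t x y b₀ b₁ b₂ b₃ b₄ = 1),
      (∃ s : k, algebraMap k F c * M t x y a₀ a₁ a₂ a₃ a₄ = algebraMap k F s) ∨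
        TcS κ clsF t x y (algebraMap k F c * M t x y a₀ a₁ a₂ a₃ a₄))
    (hred : ∀ x y : F, G6 t x y → ∀ p ∈ clsF, sy (ev (glS κ t x y) p.1) ∈ SC k F ⊔
      Submodule.span ℚ {a : B2 F | ∃ p ∈ clsK, a = sy (ev (glS κ t x y) p.1)})
    {L : List Tm} (hL : okT 7 clsK L = true) (hD : chkD 7 clsK L = true)
    (hmul : ∀ x y : F, G6 t x y → ∀ L' ∈ LL, ∃ β : ℚ,
      KC72.zt (glS κ t x y) R.cls L' - β • KC72.zt (glS κ t x y) clsK L ∈ Cst k F)
    (hun : ∀ x y : F, G6 t x y → Unram k (KC72.zt (glS κ t x y) clsK L))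
    (hnz : ∀ (φ : k →+* ℝ) (x y : F), G6 t x y → IntermediateField.adjoin k {x, y} = ⊤ →
      RegNe φ (KC72.zt (glS κ t x y) clsK L)) : Line P X Y := by
  obtain ⟨hb, x, y, hG, hO, hS, htop⟩ := h6
  have : CharZero F := charZero_of_injective_algebraMap (algebraMap k F).injective
  have hgen : G6 t x y := UE6.gen6 hG
  have hgl : List.ofFn (G6S κ t x y) = glS κ t x y := N6S.ofFn_G6S κ
  refine line_rcertX (k := k) hg hS.toSame hR (n := 7) (r := 5) hn hr (cls := clsK) hcl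
    (G := G6S κ t x y) (by norm_num) (N6S.G6S_supp hk hb hO hG) (fun i hi => N6S.G6S_const κ i hi)
    (fun e c hc he => N6S.G6S_hM hk hgen e c hc he) (fun e he hp => N6S.G6S_hc (k := k) κ e he hp)
    ?_ ?_ hL hD (ξ := KC72.zt (glS κ t x y) clsK L) (by rw [hgl]) ?_ (hun x y hgen) ?_
  · rw [hgl]
    exact fun p hp => hsF x y hgen p (hKF p hp)
  · intro f h1 h2
    have h3 := N6S.hU_of hk hb hO hG (hF x y hgen) f h1 h2
    rw [hgl] at h3 ⊢
    exact span_red (hred x y hgen) (sy_mem_orb (N6S.glS_ne κ hgen) (hsF x y hgen) h3)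
  · rw [hgl]
    exact hmul x y hgen
  · intro φ ht
    exact hnz φ x y hgen (htop ht)

end Pool.Agent.FK4
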