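import Pool.Agent.Lib_helper60.N6.R6
import Pool.Agent.Lib_helper60.FAM.Ln6S

/-!
# Points of order six: the full clause
-/

set_option autoImplicit false
set_option linter.unusedSectionVars false
set_option linter.unusedVariables false

open scoped TensorProduct WithZero

namespace Pool.Agent.FK4

open Pool.Agent.MK4 WeierstrassCurve.Affine Pool.Agent.KC72
open Pool.Agent.TN (Wt)
open Pool.Agent.UEG (P0)
open Pool.Agent.N6C (c6_1 c6_2 c6_3 c6_1_ok c6_2_ok c6_3_ok)

variable {k : Type*} [Field k] [DecidableEq k] [CharZero k] {W : WeierstrassCurve.Affine k}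
  {F : Type*} [Field F] [Algebra k F] {X Y : F}

/-- **points of order six**, with the normal form of the group -/
theorem six_full (hg : Generic W X Y) (P : W.Point) (h : addOrderOf P = 6) :
    ∃ (c : k) (x y : F), Tate P X Y (c + c ^ 2) c x y ∧
      (Indep c (c + 1) → 3 * c ≠ 1 → 3 * c ≠ -1 → 5 * c ≠ -1 →
        UnitEqS (AddSubgroup.zmultiples P) X Y ∧ ClosedIn (AddSubgroup.zmultiples P) X Y ⊥) ∧
      (c = 1 ∨ c = -2 ∨ 2 * c = -1 → Line P X Y) ∧ To6t c P X Y := by
  obtain ⟨t, x, y, hb, ht, ht1, hT, hG, hO, hS, htop⟩ := tate6 hg P h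
  have hgen : N6.G6 t x y := UE6.gen6 hG
  have hq := q6_of hgen
  refine ⟨t, x, y, hT, ?_, ?_, hb, x, y, hG, hO, hS, htop⟩
  · intro hi h1 h2 h3
    have hk : N6.Kd 0 t := ⟨fun _ => ⟨hi, fun e => h1 (by linear_combination -e),
      fun e => h2 (by linear_combination e), fun e => h3 (by linear_combination e)⟩,
      fun h => absurd h (by decide), fun h => absurd h (by decide), fun h => absurd h (by decide)⟩
    refine ⟨hS.unitEqS.mpr (UE6.unitEqS6 ht ht1 hb hO hG hk), closedIn_bot hg fun z hz hc => ?_⟩
    rw [hS.toSame.sp, UE6.sp6 ht ht1 hb hO hG] at hz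
    rw [← TN.KC_eq]
    exact N6.closed ht ht1 hk hgen hz hc
  · rintro (hs | hs | hs)
    · have hB : algebraMap k F (t ^ 2 + t) = 2 := by
        rw [hs, map_add, map_pow, map_one]; norm_num
      have hTT : algebraMap k F t = 1 := by rw [hs, map_one]
      rw [hB, hTT] at hq
      have : CharZero F := charZero_of_injective_algebraMap (algebraMap k F).injective
      have hξ : xi6a x y = zt (N6.gl t x y) c6_1.toCert.cls L6a := by
        have h1 := xi6a_zt hq
        unfold N6.gl
        rw [hB, hTT]
        exact h1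
      refine line_of hg ht ht1 hb hO hG hS c6_1_ok rfl rfl (N6.sols1 hs hgen) (fun z hz hc =>
        N6.closed1 hs hgen c6_1.toCert c6_1_ok rfl rfl rfl hz hc) (L := L6a) (by decide +kernel)
        (by decide +kernel) (a := 1) one_ne_zero (by decide +kernel) hξ ?_ ?_
      · exact FK4R.unram_six_a (b := t ^ 2 + t) (c := t) (by ring) hs hgen
      · intro φ ht'
        have h2 := htop ht'
        refine K4N.rz_xi6a φ ?_ h2
        have h3 : TN.Gen (t ^ 2 + t) t x y := hgen
        rw [hs] at h3
        norm_num at h3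
        exact h3
    · have hB : algebraMap k F (t ^ 2 + t) = 2 := by
        rw [hs, map_add, map_pow, map_neg, map_ofNat]; norm_num
      have hTT : algebraMap k F t = -2 := by rw [hs, map_neg, map_ofNat]
      rw [hB, hTT] at hq
      have : CharZero F := charZero_of_injective_algebraMap (algebraMap k F).injective
      have hξ : xi6b x y = zt (N6.gl t x y) c6_2.toCert.cls L6b := by
        have h1 := xi6b_zt hq
        unfold N6.gl
        rw [hB, hTT]
        exact h1
      refine line_of hg ht ht1 hb hO hG hS c6_2_ok rfl rfl (N6.sols2 hs hgen) (fun z hz hc =>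
        N6.closed2 hs hgen c6_2.toCert c6_2_ok rfl rfl rfl hz hc) (L := L6b) (by decide +kernel)
        (by decide +kernel) (a := 1) one_ne_zero (by decide +kernel) hξ ?_ ?_
      · exact FK4R.unram_six_b (b := t ^ 2 + t) (c := t) (by ring) hs hgen
      · intro φ ht'
        have h2 := htop ht'
        refine K4N.rz_xi6b φ ?_ h2
        have h3 : TN.Gen (t ^ 2 + t) t x y := hgen
        have h4 : t ^ 2 + t = 2 := by rw [hs]; norm_num
        rw [h4, hs] at h3
        exact h3
    · have : CharZero F := charZero_of_injective_algebraMap (algebraMap k F).injective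
      have h5 : t = -1 / 2 := by
        rw [eq_div_iff two_ne_zero, mul_comm]; exact hs
      have hTT : algebraMap k F t = -1 / 2 := by
        rw [h5, map_div₀, map_neg, map_one, map_ofNat]
      have hB : algebraMap k F (t ^ 2 + t) = -1 / 4 := by
        rw [map_add, map_pow, hTT]; norm_num
      rw [hB, hTT] at hq
      have hξ : xi6c x y = zt (N6.gl t x y) c6_3.toCert.cls L6c := by
        have h1 := xi6c_zt hq
        unfold N6.gl
        rw [hB, hTT]
        exact h1
      refine line_of hg ht ht1 hb hO hG hS c6_3_ok rfl rfl (N6.sols3 hs hgen) (fun z hz hc =>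
        N6.closed3 hs hgen c6_3.toCert c6_3_ok rfl rfl rfl hz hc) (L := L6c) (by decide +kernel)
        (by decide +kernel) (a := 1) one_ne_zero (by decide +kernel) hξ ?_ ?_
      · exact FK4R.unram_six_c (b := t ^ 2 + t) (c := t) (by ring) hs hgen
      · intro φ ht'
        have h2 := htop ht'
        refine K4N.rz_xi6c φ ?_ h2
        have h3 : TN.Gen (t ^ 2 + t) t x y := hgen
        have h4 : t ^ 2 + t = -1 / 4 := by rw [h5]; norm_num
        rw [h4, h5] at h3
        exact h3

/-- **points of order six**, all parameters -/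
theorem six_of' (hg : Generic W X Y) (P : W.Point) (h : addOrderOf P = 6)
    (a0 : To6t (1 / 3) P X Y → Line P X Y) (a1 : To6t (-1 / 3) P X Y → Line P X Y)
    (a2 : To6t (-1 / 5) P X Y → Line P X Y) :
    ∃ (c : k) (x y : F), Tate P X Y (c + c ^ 2) c x y ∧
      (Indep c (c + 1) → 3 * c ≠ 1 → 3 * c ≠ -1 → 5 * c ≠ -1 →
        UnitEqS (AddSubgroup.zmultiples P) X Y ∧ ClosedIn (AddSubgroup.zmultiples P) X Y ⊥) ∧
      (c = 1 ∨ c = -2 ∨ 2 * c = -1 ∨ 3 * c = 1 ∨ 3 * c = -1 ∨ 5 * c = -1 → Line P X Y) := by
  obtain ⟨c, x, y, hT, h1, h2, h3⟩ := six_full hg P h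
  have n5 : (5 : k) ≠ 0 := by norm_num
  refine ⟨c, x, y, hT, h1, ?_⟩
  rintro (e | e | e | e | e | e)
  · exact h2 (Or.inl e)
  · exact h2 (Or.inr (Or.inl e))
  · exact h2 (Or.inr (Or.inr e))
  · have : c = 1 / 3 := by linear_combination e / 3
    subst this
    exact a0 h3
  · have : c = -1 / 3 := by linear_combination e / 3
    subst this
    exact a1 h3
  · have : c = -1 / 5 := by linear_combination e / 5
    subst this
    exact a2 h3

end Pool.Agent.FK4
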