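import Pool.Agent.Lib_helper60.FAM.Ln6S
import Pool.Agent.Lib_helper60.K8c.I
import Pool.Agent.Lib_helper60.K8d.I

/-!
# Points of order eight, `d = 3/2` and `d = 3/4`: the clause `Line` from the classes
-/

set_option autoImplicit false
set_option linter.unusedSectionVars false
set_option linter.unusedVariables false

open scoped TensorProduct WithZero

namespace Pool.Agent.FK4

open Pool.Agent.MK4 WeierstrassCurve.Affine Pool.Agent.KC72 Pool.Agent.MC
open Pool.Agent.TN (Wt)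
open Pool.Agent.UEG (P0)

variable {k : Type*} [Field k] [DecidableEq k] [CharZero k] {W : WeierstrassCurve.Affine k}
  {F : Type*} [Field F] [Algebra k F] {X Y : F}

/-- **the clause `Line`** for `d = 3 / 2` from a certificate with several classes -/
theorem line8c_of (hg : Generic W X Y) {P : W.Point} (h8 : To8t (3 / 2 : k) P X Y)
    {R : RCert} {LL : List (List Tm)} (hR : ROkX R LL) (hn : R.n = 9) (hr : R.r = 7)
    {clsK : List (Mo × Mo)} (hcl : sameC R.cls clsK = true) (hKF : ∀ p ∈ clsK, p ∈ K8c.clsA)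
    (hred : ∀ x y : F, TN.Gen (1 : k) (2/3) x y → ∀ p ∈ K8c.clsA,
      sy (ev (List.ofFn (K8c.G8 x y)) p.1) ∈ SC k F ⊔
        Submodule.span ℚ {a : B2 F | ∃ p ∈ clsK, a = sy (ev (List.ofFn (K8c.G8 x y)) p.1)})
    {L : List Tm} (hL : okT 9 clsK L = true) (hD : chkD 9 clsK L = true)
    (hmul : ∀ x y : F, TN.Gen (1 : k) (2/3) x y → ∀ L' ∈ LL, ∃ β : ℚ,
      KC72.zt (List.ofFn (K8c.G8 x y)) R.cls L' -
        β • KC72.zt (List.ofFn (K8c.G8 x y)) clsK L ∈ Cst k F)
    (hun : ∀ x y : F, TN.Gen (1 : k) (2/3) x y →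
      Unram k (KC72.zt (List.ofFn (K8c.G8 x y)) clsK L))
    (hnz : ∀ (φ : k →+* ℝ) (x y : F), TN.Gen (1 : k) (2/3) x y →
      IntermediateField.adjoin k {x, y} = ⊤ →
      RegNe φ (KC72.zt (List.ofFn (K8c.G8 x y)) clsK L)) : Line P X Y := by
  obtain ⟨hb, x, y, hG, hO, hS, htop⟩ := h8
  have : CharZero F := charZero_of_injective_algebraMap (algebraMap k F).injective
  have hgen := K8c.gen hG
  refine line_rcertX (k := k) hg hS.toSame hR (n := 9) (r := 7) hn hr (cls := clsK) hcl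
    (G := K8c.G8 x y) (by norm_num) (K8c.G8_supp hb hO hG) (fun i hi => K8c.G8_const i hi)
    (fun e c hc he => K8c.G8_hM hgen e c hc he) (fun e he hp => K8c.G8_hc hgen e he hp)
    (fun p hp => K8c.solsA hgen p (hKF p hp)) ?_ hL hD
    (ξ := KC72.zt (List.ofFn (K8c.G8 x y)) clsK L) rfl (hmul x y hgen) (hun x y hgen) ?_
  · intro f h1 h2
    exact span_red (hred x y hgen) (K8c.hUS hb hO hG f h1 h2)
  · intro φ ht
    exact hnz φ x y hgen (htop ht)

/-- **the clause `Line`** for `d = 3 / 4` from a certificate with several classes -/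
theorem line8d_of (hg : Generic W X Y) {P : W.Point} (h8 : To8t (3 / 4 : k) P X Y)
    {R : RCert} {LL : List (List Tm)} (hR : ROkX R LL) (hn : R.n = 9) (hr : R.r = 7)
    {clsK : List (Mo × Mo)} (hcl : sameC R.cls clsK = true) (hKF : ∀ p ∈ clsK, p ∈ K8d.clsA)
    (hred : ∀ x y : F, TN.Gen (-1/8 : k) (-1/6) x y → ∀ p ∈ K8d.clsA,
      sy (ev (List.ofFn (K8d.G8 x y)) p.1) ∈ SC k F ⊔
        Submodule.span ℚ {a : B2 F | ∃ p ∈ clsK, a = sy (ev (List.ofFn (K8d.G8 x y)) p.1)})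
    {L : List Tm} (hL : okT 9 clsK L = true) (hD : chkD 9 clsK L = true)
    (hmul : ∀ x y : F, TN.Gen (-1/8 : k) (-1/6) x y → ∀ L' ∈ LL, ∃ β : ℚ,
      KC72.zt (List.ofFn (K8d.G8 x y)) R.cls L' -
        β • KC72.zt (List.ofFn (K8d.G8 x y)) clsK L ∈ Cst k F)
    (hun : ∀ x y : F, TN.Gen (-1/8 : k) (-1/6) x y →
      Unram k (KC72.zt (List.ofFn (K8d.G8 x y)) clsK L))
    (hnz : ∀ (φ : k →+* ℝ) (x y : F), TN.Gen (-1/8 : k) (-1/6) x y →
      IntermediateField.adjoin k {x, y} = ⊤ →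
      RegNe φ (KC72.zt (List.ofFn (K8d.G8 x y)) clsK L)) : Line P X Y := by
  obtain ⟨hb, x, y, hG, hO, hS, htop⟩ := h8
  have : CharZero F := charZero_of_injective_algebraMap (algebraMap k F).injective
  have hgen := K8d.gen hG
  refine line_rcertX (k := k) hg hS.toSame hR (n := 9) (r := 7) hn hr (cls := clsK) hcl
    (G := K8d.G8 x y) (by norm_num) (K8d.G8_supp hb hO hG) (fun i hi => K8d.G8_const i hi)
    (fun e c hc he => K8d.G8_hM hgen e c hc he) (fun e he hp => K8d.G8_hc hgen e he hp)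
    (fun p hp => K8d.solsA hgen p (hKF p hp)) ?_ hL hD
    (ξ := KC72.zt (List.ofFn (K8d.G8 x y)) clsK L) rfl (hmul x y hgen) (hun x y hgen) ?_
  · intro f h1 h2
    exact span_red (hred x y hgen) (K8d.hUS hb hO hG f h1 h2)
  · intro φ ht
    exact hnz φ x y hgen (htop ht)

end Pool.Agent.FK4
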